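import Mathlib

/-!
# MP_b2be16_co: {45123, 45213} and {12345, 12354} are Wilf-equivalent
-/

set_option autoImplicit false

open Finset Equiv

namespace Pool.Agent.Results.MP_b2be16_co.WilfPair

/-- The permutation `π` of `n` letters contains the pattern `q` of length five (one-line notation):
there are five positions at which `π` is order-isomorphic to `q`. -/
def Contains {n : ℕ} (q : Fin 5 → ℕ) (π : Perm (Fin n)) : Prop :=
  ∃ i : Fin 5 → Fin n, StrictMono i ∧ ∀ s t : Fin 5, π (i s) < π (i t) ↔ q s < q t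

/-- the number of permutations of `n` letters avoiding both `q` and `q'`. -/
noncomputable def av (n : ℕ) (q q' : Fin 5 → ℕ) : ℕ :=
  Nat.card {π : Perm (Fin n) // ¬ Contains q π ∧ ¬ Contains q' π}

/-! ### Permutations as functions on the naturals -/

section ex

variable {k : ℕ}

/-- extension of a permutation of `Fin k` by the identity. -/
def ex (σ : Perm (Fin k)) (t : ℕ) : ℕ := if h : t < k then (σ ⟨t, h⟩ : ℕ) else t

theorem ex_val (σ : Perm (Fin k)) (t : Fin k) : ex σ t = (σ t : ℕ) := by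
  simp [ex]

theorem ex_lt (σ : Perm (Fin k)) {t : ℕ} (h : t < k) : ex σ t < k := by
  simp [ex, h]

theorem ex_ge (σ : Perm (Fin k)) {t : ℕ} (h : k ≤ t) : ex σ t = t := by
  simp [ex, Nat.not_lt.2 h]

theorem ex_mul (σ τ : Perm (Fin k)) (t : ℕ) : ex (σ * τ) t = ex σ (ex τ t) := by
  by_cases h : t < k
  · simp [ex, h]
  · rw [ex_ge _ (by omega), ex_ge τ (by omega), ex_ge _ (by omega)]

theorem ex_one (t : ℕ) : ex (1 : Perm (Fin k)) t = t := by
  by_cases h : t < k
  · simp [ex, h]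
  · rw [ex_ge _ (by omega)]

theorem ex_inv_ex (σ : Perm (Fin k)) (t : ℕ) : ex σ⁻¹ (ex σ t) = t := by
  rw [← ex_mul, inv_mul_cancel, ex_one]

theorem ex_ex_inv (σ : Perm (Fin k)) (t : ℕ) : ex σ (ex σ⁻¹ t) = t := by
  rw [← ex_mul, mul_inv_cancel, ex_one]

theorem ex_inj (σ : Perm (Fin k)) : Function.Injective (ex σ) := fun s t h => by
  rw [← ex_inv_ex σ s, h, ex_inv_ex]

theorem ex_ext {σ τ : Perm (Fin k)} (h : ∀ t < k, ex σ t = ex τ t) : σ = τ := by
  ext t
  rw [← ex_val, ← ex_val]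
  exact h t t.isLt

theorem ex_lt_iff (σ : Perm (Fin k)) {t : ℕ} : ex σ t < k ↔ t < k := by
  constructor
  · intro h
    by_contra hc
    rw [ex_ge σ (by omega)] at h
    omega
  · exact ex_lt σ

theorem ex_swap {i j : ℕ} (hi : i < k) (hj : j < k) (t : ℕ) :
    ex (swap (⟨i, hi⟩ : Fin k) ⟨j, hj⟩) t = if t = i then j else if t = j then i else t := by
  by_cases h : t < k
  · unfold ex
    rw [dif_pos h, swap_apply_def]
    simp only [Fin.mk.injEq]
    split_ifs <;> rfl
  · rw [ex_ge _ (by omega), if_neg (by omega), if_neg (by omega)]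

end ex

/-! ### The inside cells -/

section core

variable (n : ℕ) {r : ℕ} (Γ : (Fin r → ℕ) → Prop)

/-- the cell `(c, v)` is inside: there is an occurrence of the suffix pattern on its upper
right. -/
def Ins (p : ℕ → ℕ) (c v : ℕ) : Prop :=
  ∃ x : Fin r → ℕ, StrictMono x ∧ (∀ i, c < x i) ∧ (∀ i, x i < n) ∧ (∀ i, v < p (x i)) ∧
    Γ (fun i => p (x i))

variable {n Γ}

theorem Ins.mono {p : ℕ → ℕ} {c v c' v' : ℕ} (h : Ins n Γ p c v) (hc : c' ≤ c)
    (hv : v' ≤ v) : Ins n Γ p c' v' := by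
  obtain ⟨x, h1, h2, h3, h4, h5⟩ := h
  exact ⟨x, h1, fun i => by have := h2 i; omega, h3, fun i => by have := h4 i; omega, h5⟩

theorem Ins.lt [NeZero r] {p : ℕ → ℕ} {c v : ℕ} (h : Ins n Γ p c v) : c < n := by
  obtain ⟨x, h1, h2, h3, h4, h5⟩ := h
  have := h2 0
  have := h3 0
  omega

theorem key [NeZero r] (p : ℕ → ℕ) : ∀ m c v : ℕ, n ≤ c + m → Ins n Γ p c v →
    ∃ x : Fin r → ℕ, StrictMono x ∧ (∀ i, c < x i) ∧ (∀ i, x i < n) ∧ (∀ i, v < p (x i)) ∧
      Γ (fun i => p (x i)) ∧ ∀ i, ¬ Ins n Γ p (x i) (p (x i)) := by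
  intro m
  induction m with
  | zero =>
    intro c v h1 h2
    have := h2.lt
    omega
  | succ m ih =>
    intro c v h1 h2
    obtain ⟨x, h3, h4, h5, h6, h7⟩ := h2
    by_cases hx : ∃ i, Ins n Γ p (x i) (p (x i))
    · obtain ⟨i, hi⟩ := hx
      have e1 := h4 i
      have e2 := h6 i
      obtain ⟨x', g1, g2, g3, g4, g5⟩ := ih (x i) (p (x i)) (by omega) hi
      exact ⟨x', g1, fun j => by have := g2 j; omega, g3, fun j => by have := g4 j; omega, g5⟩
    · exact ⟨x, h3, h4, h5, h6, h7, fun i hi => hx ⟨i, hi⟩⟩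

theorem region [NeZero r] {p p' : ℕ → ℕ}
    (h : ∀ a, p a = p' a ∨ (Ins n Γ p a (p a) ∧ Ins n Γ p a (p' a))) (c v : ℕ) :
    Ins n Γ p' c v ↔ Ins n Γ p c v := by
  constructor
  · rintro ⟨x, h3, h4, h5, h6, h7⟩
    by_cases hx : ∃ i, Ins n Γ p (x i) (p' (x i))
    · obtain ⟨i, hi⟩ := hx
      have e1 := h4 i
      have e2 := h6 i
      exact hi.mono (by omega) (by omega)
    · have e : ∀ i, p' (x i) = p (x i) := by
        intro i
        rcases h (x i) with h' | ⟨-, h'⟩
        · exact h'.symm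
        · exact absurd ⟨i, h'⟩ hx
      refine ⟨x, h3, h4, h5, fun i => by rw [← e i]; exact h6 i, ?_⟩
      simpa only [e] using h7
  · intro hc
    obtain ⟨x, h3, h4, h5, h6, h7, hx⟩ := key p n c v (by omega) hc
    have e : ∀ i, p (x i) = p' (x i) := by
      intro i
      rcases h (x i) with h' | ⟨h', -⟩
      · exact h'
      · exact absurd h' (hx i)
    refine ⟨x, h3, h4, h5, fun i => by rw [← e i]; exact h6 i, ?_⟩
    simpa only [e] using h7

variable (n Γ)

open Classical in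
/-- the outside points. -/
noncomputable def out (π : Perm (Fin n)) (a : ℕ) : Option ℕ :=
  if Ins n Γ (ex π) a (ex π a) then none else some (ex π a)

variable {n Γ}

theorem out_none {π : Perm (Fin n)} {a : ℕ} :
    out n Γ π a = none ↔ Ins n Γ (ex π) a (ex π a) := by
  classical
  unfold out
  split_ifs with h <;> simp [h]

theorem out_some {π : Perm (Fin n)} {a : ℕ} (h : ¬ Ins n Γ (ex π) a (ex π a)) :
    out n Γ π a = some (ex π a) := by
  classical
  unfold out
  rw [if_neg h]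

theorem out_agree {π π' : Perm (Fin n)} (h : out n Γ π = out n Γ π') {a : ℕ}
    (ha : ¬ Ins n Γ (ex π) a (ex π a)) : ex π a = ex π' a := by
  have h1 := congrFun h a
  rw [out_some ha] at h1
  by_cases h2 : Ins n Γ (ex π') a (ex π' a)
  · rw [out_none.2 h2] at h1
    exact absurd h1 (by simp)
  · rw [out_some h2] at h1
    exact Option.some.inj h1

theorem ins_of_out [NeZero r] {π π' : Perm (Fin n)} (h : out n Γ π = out n Γ π')
    {c v : ℕ} (hc : Ins n Γ (ex π) c v) : Ins n Γ (ex π') c v := by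
  obtain ⟨x, h3, h4, h5, h6, h7, hx⟩ := key (ex π) n c v (by omega) hc
  have e : ∀ i, ex π (x i) = ex π' (x i) := fun i => out_agree h (hx i)
  refine ⟨x, h3, h4, h5, fun i => by rw [← e i]; exact h6 i, ?_⟩
  simpa only [e] using h7

theorem out_eq [NeZero r] {π π' : Perm (Fin n)}
    (h : ∀ a, ex π a = ex π' a ∨
      (Ins n Γ (ex π) a (ex π a) ∧ Ins n Γ (ex π) a (ex π' a))) :
    out n Γ π' = out n Γ π := by
  have hr := region h
  funext a
  by_cases h1 : Ins n Γ (ex π) a (ex π a)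
  · rw [out_none.2 h1, out_none, hr]
    rcases h a with h2 | ⟨-, h2⟩
    · rwa [← h2]
    · exact h2
  · rcases h a with h2 | ⟨h2, -⟩
    · rw [out_some h1, out_some (by rw [hr, ← h2]; exact h1), h2]
    · exact absurd h2 h1

variable (n Γ)

/-- the avoiders of `1 2` followed by the suffix. -/
def A (π : Perm (Fin n)) : Prop :=
  ∀ i j, i < j → j < n → ex π i < ex π j → ¬ Ins n Γ (ex π) j (ex π j)

/-- the avoiders of `2 1` followed by the suffix. -/
def B (π : Perm (Fin n)) : Prop :=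
  ∀ i j, i < j → j < n → ex π j < ex π i → ¬ Ins n Γ (ex π) j (ex π i)

variable {n Γ}

theorem A_inj {π π' : Perm (Fin n)} (h : out n Γ π = out n Γ π')
    (hA : A n Γ π) (hA' : A n Γ π') : π = π' := by
  have aux : ∀ {π π' : Perm (Fin n)}, out n Γ π = out n Γ π' →
      A n Γ π → ∀ c < n, (∀ a < c, ex π a = ex π' a) → ¬ ex π c < ex π' c := by
    intro π π' h hA c hc hca hlt
    set r := ex π' c
    have hr : r < n := ex_lt _ hc
    have hj1 : ex π⁻¹ r < n := ex_lt _ hr
    have hj2 : ex π (ex π⁻¹ r) = r := ex_ex_inv _ _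
    set j := ex π⁻¹ r
    have hcj : c < j := by
      rcases lt_trichotomy j c with h1 | h1 | h1
      · have := hca j h1
        rw [hj2] at this
        have := ex_inj π' this
        omega
      · rw [h1] at hj2
        omega
      · exact h1
    refine hA c j (by omega) hj1 (by omega) ?_
    by_contra hn
    have := out_agree h hn
    rw [hj2] at this
    have := ex_inj π' this
    omega
  apply ex_ext
  intro t
  induction t using Nat.strong_induction_on with
  | _ t ih =>
    intro ht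
    have h1 := aux h hA t ht (fun a ha => ih a ha (by omega))
    have h2 := aux h.symm hA' t ht (fun a ha => (ih a ha (by omega)).symm)
    omega

theorem B_inj [NeZero r] {π π' : Perm (Fin n)} (h : out n Γ π = out n Γ π')
    (hB : B n Γ π) (hB' : B n Γ π') : π = π' := by
  have aux : ∀ {π π' : Perm (Fin n)}, out n Γ π = out n Γ π' →
      B n Γ π → ∀ c < n, (∀ a, c < a → ex π a = ex π' a) → ¬ ex π c < ex π' c := by
    intro π π' h hB c hc hca hlt
    have hin : Ins n Γ (ex π') c (ex π' c) := by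
      by_contra hn
      have := out_agree h.symm hn
      omega
    set r := ex π' c
    have hr : r < n := ex_lt _ hc
    have hj1 : ex π⁻¹ r < n := ex_lt _ hr
    have hj2 : ex π (ex π⁻¹ r) = r := ex_ex_inv _ _
    set j := ex π⁻¹ r
    have hcj : j < c := by
      rcases lt_trichotomy j c with h1 | h1 | h1
      · exact h1
      · rw [h1] at hj2
        omega
      · have := hca j h1
        rw [hj2] at this
        have := ex_inj π' this
        omega
    refine hB j c (by omega) hc (by omega) ?_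
    rw [hj2]
    exact ins_of_out h.symm hin
  apply ex_ext
  have main : ∀ m t, n ≤ t + m → ex π t = ex π' t := by
    intro m
    induction m with
    | zero =>
      intro t ht
      rw [ex_ge _ (by omega), ex_ge _ (by omega)]
    | succ m ih =>
      intro t ht
      by_cases htn : t < n
      · have h1 := aux h hB t htn (fun a ha => ih a (by omega))
        have h2 := aux h.symm hB' t htn (fun a ha => (ih a (by omega)).symm)
        omega
      · rw [ex_ge _ (by omega), ex_ge _ (by omega)]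
  intro t _
  exact main n t (by omega)

theorem swap_cond (π : Perm (Fin n)) {i j : ℕ} (hi : i < n) (hj : j < n)
    (hij : i < j) (h : Ins n Γ (ex π) j (max (ex π i) (ex π j))) (a : ℕ) :
    ex π a = ex (π * swap (⟨i, hi⟩ : Fin n) ⟨j, hj⟩) a ∨ (Ins n Γ (ex π) a (ex π a) ∧
      Ins n Γ (ex π) a (ex (π * swap (⟨i, hi⟩ : Fin n) ⟨j, hj⟩) a)) := by
  rw [ex_mul, ex_swap]
  by_cases h1 : a = i
  · right
    subst h1
    rw [if_pos rfl]
    exact ⟨h.mono (by omega) (by omega), h.mono (by omega) (by omega)⟩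
  · rw [if_neg h1]
    by_cases h2 : a = j
    · right
      subst h2
      rw [if_pos rfl]
      exact ⟨h.mono (by omega) (by omega), h.mono (by omega) (by omega)⟩
    · left
      rw [if_neg h2]

theorem swap_out [NeZero r] (π : Perm (Fin n)) {i j : ℕ} (hi : i < n) (hj : j < n)
    (hij : i < j) (h : Ins n Γ (ex π) j (max (ex π i) (ex π j))) :
    out n Γ (π * swap (⟨i, hi⟩ : Fin n) ⟨j, hj⟩) = out n Γ π :=
  out_eq (swap_cond π hi hj hij h)

/-- the potential. -/
def Phi (π : Perm (Fin n)) : ℤ := ∑ a ∈ range n, (a : ℤ) * ex π a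

theorem Phi_swap (π : Perm (Fin n)) {i j : ℕ} (hi : i < n) (hj : j < n) (hij : i < j) :
    Phi (π * swap (⟨i, hi⟩ : Fin n) ⟨j, hj⟩) =
      Phi π - ((j : ℤ) - i) * ((ex π j : ℤ) - ex π i) := by
  unfold Phi
  have h1 : ∀ a ∈ range n, (a : ℤ) * ex (π * swap (⟨i, hi⟩ : Fin n) ⟨j, hj⟩) a =
      (a : ℤ) * ex π a + ((if a = i then (a : ℤ) * (ex π j - ex π i) else 0) +
        (if a = j then (a : ℤ) * (ex π i - ex π j) else 0)) := by
    intro a _
    rw [ex_mul, ex_swap]
    by_cases h1 : a = i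
    · subst h1
      rw [if_pos rfl, if_pos rfl, if_neg (by omega)]
      ring
    · by_cases h2 : a = j
      · subst h2
        rw [if_neg h1, if_pos rfl, if_neg h1, if_pos rfl]
        ring
      · rw [if_neg h1, if_neg h2, if_neg h1, if_neg h2]
        ring
  rw [Finset.sum_congr rfl h1, Finset.sum_add_distrib, Finset.sum_add_distrib,
    Finset.sum_ite_eq', Finset.sum_ite_eq', if_pos (mem_range.2 hi), if_pos (mem_range.2 hj)]
  ring

theorem A_exists [NeZero r] (π : Perm (Fin n)) :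
    ∃ π', A n Γ π' ∧ out n Γ π' = out n Γ π := by
  classical
  obtain ⟨π', h1, h2⟩ := Finset.exists_min_image
    ((univ : Finset (Perm (Fin n))).filter fun π' => out n Γ π' = out n Γ π)
    Phi ⟨π, by simp⟩
  rw [mem_filter] at h1
  refine ⟨π', ?_, h1.2⟩
  intro i j hij hj hlt hin
  have hi : i < n := by omega
  have h3 := swap_out π' hi hj (by omega) (by
    rw [max_eq_right hlt.le]; exact hin)
  have h4 := h2 _ (by rw [mem_filter]; exact ⟨mem_univ _, h3.trans h1.2⟩)
  rw [Phi_swap π' hi hj (by omega)] at h4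
  have h5 : (0 : ℤ) < ((j : ℤ) - i) * ((ex π' j : ℤ) - ex π' i) :=
    mul_pos (by omega) (by omega)
  omega

theorem B_exists [NeZero r] (π : Perm (Fin n)) :
    ∃ π', B n Γ π' ∧ out n Γ π' = out n Γ π := by
  classical
  obtain ⟨π', h1, h2⟩ := Finset.exists_max_image
    ((univ : Finset (Perm (Fin n))).filter fun π' => out n Γ π' = out n Γ π)
    Phi ⟨π, by simp⟩
  rw [mem_filter] at h1
  refine ⟨π', ?_, h1.2⟩
  intro i j hij hj hlt hin
  have hi : i < n := by omega
  have h3 := swap_out π' hi hj (by omega) (by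
    rw [max_eq_left hlt.le]; exact hin)
  have h4 := h2 _ (by rw [mem_filter]; exact ⟨mem_univ _, h3.trans h1.2⟩)
  rw [Phi_swap π' hi hj (by omega)] at h4
  have h5 : (0 : ℤ) < ((j : ℤ) - i) * ((ex π' i : ℤ) - ex π' j) :=
    mul_pos (by omega) (by omega)
  have h6 : ((j : ℤ) - i) * ((ex π' j : ℤ) - ex π' i) =
      - (((j : ℤ) - i) * ((ex π' i : ℤ) - ex π' j)) := by ring
  omega

open Classical in
theorem card_one [NeZero r] :
    ((univ : Finset (Perm (Fin n))).filter fun π => A n Γ π).card =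
    ((univ : Finset (Perm (Fin n))).filter fun π => B n Γ π).card := by
  rw [← Finset.card_image_of_injOn (f := out n Γ) (s := (univ : Finset (Perm (Fin n))).filter
      fun π => A n Γ π),
    ← Finset.card_image_of_injOn (f := out n Γ) (s := (univ : Finset (Perm (Fin n))).filter
      fun π => B n Γ π)]
  · congr 1
    ext o
    simp only [mem_image, mem_filter, mem_univ, true_and]
    constructor
    · rintro ⟨π, -, rfl⟩
      obtain ⟨π', h3, h4⟩ := B_exists (Γ := Γ) π
      exact ⟨π', h3, h4⟩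
    · rintro ⟨π, -, rfl⟩
      obtain ⟨π', h3, h4⟩ := A_exists (Γ := Γ) π
      exact ⟨π', h3, h4⟩
  · intro π hπ π' hπ' h
    simp only [coe_filter, mem_univ, true_and, Set.mem_ofPred_eq] at hπ hπ'
    exact B_inj h hπ hπ'
  · intro π hπ π' hπ' h
    simp only [coe_filter, mem_univ, true_and, Set.mem_ofPred_eq] at hπ hπ'
    exact A_inj h hπ hπ'

end core

/-! ### The code of a permutation -/

section code

variable {n : ℕ} {r : ℕ} {Γ : (Fin r → ℕ) → Prop}

/-- number of smaller letters on the left of `w`. -/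
def cA (π : Perm (Fin n)) (w : ℕ) : ℕ :=
  ((range w).filter fun u => ex π⁻¹ u < ex π⁻¹ w).card

variable (Γ)

open Classical in
/-- number of smaller letters on the right of `w`, in columns whose cell in row `w` is inside. -/
noncomputable def cB (π : Perm (Fin n)) (w : ℕ) : ℕ :=
  ((range w).filter fun u => ex π⁻¹ w < ex π⁻¹ u ∧ Ins n Γ (ex π) (ex π⁻¹ u) w).card

/-- `x` is the next smaller letter on the right of `t`. -/
def IsNext (π : Perm (Fin n)) (t x : ℕ) : Prop :=
  x < t ∧ ex π⁻¹ t < ex π⁻¹ x ∧ Ins n Γ (ex π) (ex π⁻¹ x) t ∧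
    ∀ u < t, ex π⁻¹ t < ex π⁻¹ u → ex π⁻¹ x ≤ ex π⁻¹ u

/-- `x` is the previous smaller letter on the left of `t`. -/
def IsPrev (π : Perm (Fin n)) (t x : ℕ) : Prop :=
  x < t ∧ ex π⁻¹ x < ex π⁻¹ t ∧ Ins n Γ (ex π) (ex π⁻¹ t) t ∧
    ∀ u < t, ex π⁻¹ u < ex π⁻¹ t → ex π⁻¹ u ≤ ex π⁻¹ x

variable {Γ}

theorem IsNext.unique {π : Perm (Fin n)} {t x y : ℕ} (hx : IsNext Γ π t x)
    (hy : IsNext Γ π t y) : x = y := by
  have h1 := hx.2.2.2 y hy.1 hy.2.1
  have h2 := hy.2.2.2 x hx.1 hx.2.1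
  exact ex_inj π⁻¹ (le_antisymm h1 h2)

theorem IsPrev.unique {π : Perm (Fin n)} {t x y : ℕ} (hx : IsPrev Γ π t x)
    (hy : IsPrev Γ π t y) : x = y := by
  have h1 := hx.2.2.2 y hy.1 hy.2.1
  have h2 := hy.2.2.2 x hx.1 hx.2.1
  exact ex_inj π⁻¹ (le_antisymm h2 h1)

/-- exchange of the letters `t` and `x`. -/
def sv (π : Perm (Fin n)) (t x : ℕ) : Perm (Fin n) :=
  if h : t < n ∧ x < n then swap (⟨t, h.1⟩ : Fin n) ⟨x, h.2⟩ * π else π

/-- the transposition on the naturals. -/
def sw (t x u : ℕ) : ℕ := if u = t then x else if u = x then t else u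

theorem sv_inv {π : Perm (Fin n)} {t x : ℕ} (ht : t < n) (hx : x < n) (u : ℕ) :
    ex (sv π t x)⁻¹ u = ex π⁻¹ (sw t x u) := by
  unfold sv
  rw [dif_pos ⟨ht, hx⟩, mul_inv_rev, swap_inv, ex_mul, ex_swap]
  rfl

theorem sv_val {π : Perm (Fin n)} {t x : ℕ} (ht : t < n) (hx : x < n) (a : ℕ) :
    ex (sv π t x) a = sw t x (ex π a) := by
  unfold sv
  rw [dif_pos ⟨ht, hx⟩, ex_mul, ex_swap]
  rfl

theorem sv_sv (π : Perm (Fin n)) (t x : ℕ) : sv (sv π t x) t x = π := by
  unfold sv
  split_ifs with h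
  · rw [← mul_assoc, swap_mul_self, one_mul]
  · rfl

theorem sw_t (t x : ℕ) : sw t x t = x := if_pos rfl

theorem sw_x {t x : ℕ} (h : x < t) : sw t x x = t := by
  unfold sw
  rw [if_neg (by omega), if_pos rfl]

theorem sw_other {t x u : ℕ} (h : u ≠ t) (h' : u ≠ x) : sw t x u = u := by
  unfold sw
  rw [if_neg h, if_neg h']

theorem sw_sw {t x : ℕ} (h : x < t) (u : ℕ) : sw t x (sw t x u) = u := by
  unfold sw
  split_ifs <;> omega

/-- exchanging `t` and `x`, when the upper right corner is inside, preserves the inside cells. -/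
theorem sv_ins [NeZero r] {π : Perm (Fin n)} {t x : ℕ} (ht : t < n) (hx : x < n)
    (h1 : Ins n Γ (ex π) (ex π⁻¹ x) t) (h2 : Ins n Γ (ex π) (ex π⁻¹ t) t) (hxt : x < t)
    (c v : ℕ) : Ins n Γ (ex (sv π t x)) c v ↔ Ins n Γ (ex π) c v := by
  refine region (fun a => ?_) c v
  rw [sv_val ht hx]
  by_cases h3 : ex π a = t
  · right
    have ha : a = ex π⁻¹ t := by rw [← h3, ex_inv_ex]
    rw [h3, sw_t, ha]
    exact ⟨h2, h2.mono le_rfl hxt.le⟩
  · by_cases h4 : ex π a = x
    · right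
      have ha : a = ex π⁻¹ x := by rw [← h4, ex_inv_ex]
      rw [h4, sw_x hxt, ha]
      exact ⟨h1.mono le_rfl hxt.le, h1⟩
    · left
      rw [sw_other h3 h4]

theorem next_prev [NeZero r] {π : Perm (Fin n)} {t x : ℕ} (ht : t < n) (h : IsNext Γ π t x) :
    IsPrev Γ (sv π t x) t x := by
  obtain ⟨h1, h2, h3, h4⟩ := h
  have hx : x < n := by omega
  refine ⟨h1, ?_, ?_, ?_⟩
  · rw [sv_inv ht hx, sv_inv ht hx, sw_x h1, sw_t]
    exact h2
  · rw [sv_ins ht hx h3 (h3.mono h2.le le_rfl) h1, sv_inv ht hx, sw_t]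
    exact h3
  · intro u hu
    rw [sv_inv ht hx, sv_inv ht hx, sv_inv ht hx, sw_x h1, sw_t]
    by_cases hux : u = x
    · subst hux
      rw [sw_x h1]
      exact fun _ => le_rfl
    · rw [sw_other (by omega) hux]
      intro h5
      by_contra h6
      have := h4 u hu (by omega)
      omega

theorem prev_next [NeZero r] {π : Perm (Fin n)} {t x : ℕ} (ht : t < n) (h : IsPrev Γ π t x) :
    IsNext Γ (sv π t x) t x := by
  obtain ⟨h1, h2, h3, h4⟩ := h
  have hx : x < n := by omega
  refine ⟨h1, ?_, ?_, ?_⟩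
  · rw [sv_inv ht hx, sv_inv ht hx, sw_x h1, sw_t]
    exact h2
  · rw [sv_ins ht hx (h3.mono h2.le le_rfl) h3 h1, sv_inv ht hx, sw_x h1]
    exact h3
  · intro u hu
    rw [sv_inv ht hx, sv_inv ht hx, sv_inv ht hx, sw_x h1, sw_t]
    by_cases hux : u = x
    · subst hux
      rw [sw_x h1]
      exact fun _ => le_rfl
    · rw [sw_other (by omega) hux]
      intro h5
      by_contra h6
      have := h4 u hu (by omega)
      omega

/-- the code of the other letters does not change. -/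
theorem cA_other {π : Perm (Fin n)} {t x : ℕ} (ht : t < n) (h : IsNext Γ π t x)
    {w : ℕ} (hw : w ≠ t) : cA (sv π t x) w = cA π w := by
  obtain ⟨h1, h2, h3, h4⟩ := h
  have hx : x < n := by omega
  unfold cA
  simp only [sv_inv ht hx]
  have hinj : ∀ u v, ex π⁻¹ u = ex π⁻¹ v → u = v := fun u v h => ex_inj π⁻¹ h
  by_cases hwx : w = x
  · subst hwx
    rw [sw_x h1]
    congr 1
    refine Finset.filter_congr fun u hu => ?_
    rw [mem_range] at hu
    rw [sw_other (by omega) (by omega)]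
    have := h4 u (by omega)
    have := hinj u t
    have := hinj u w
    omega
  · rw [sw_other hw hwx]
    by_cases hwt : w < t
    · congr 1
      refine Finset.filter_congr fun u hu => ?_
      rw [mem_range] at hu
      by_cases hux : u = x
      · subst hux
        rw [sw_x h1]
        have := h4 w hwt
        have := hinj w t
        have := hinj w u
        omega
      · rw [sw_other (by omega) hux]
    · refine Finset.card_bij' (fun u _ => sw t x u) (fun u _ => sw t x u) ?_ ?_ ?_ ?_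
      · intro u hu
        rw [mem_filter, mem_range] at hu ⊢
        refine ⟨?_, hu.2⟩
        unfold sw
        split_ifs <;> omega
      · intro u hu
        rw [mem_filter, mem_range] at hu ⊢
        rw [sw_sw h1]
        refine ⟨?_, hu.2⟩
        unfold sw
        split_ifs <;> omega
      · intro u _
        exact sw_sw h1 u
      · intro u _
        exact sw_sw h1 u

theorem cB_other [NeZero r] {π : Perm (Fin n)} {t x : ℕ} (ht : t < n) (h : IsNext Γ π t x)
    {w : ℕ} (hw : w ≠ t) : cB Γ (sv π t x) w = cB Γ π w := by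
  classical
  obtain ⟨h1, h2, h3, h4⟩ := h
  have hx : x < n := by omega
  unfold cB
  simp only [sv_inv ht hx, sv_ins ht hx h3 (h3.mono h2.le le_rfl) h1]
  have hinj : ∀ u v, ex π⁻¹ u = ex π⁻¹ v → u = v := fun u v h => ex_inj π⁻¹ h
  by_cases hwx : w = x
  · subst hwx
    rw [sw_x h1]
    congr 1
    refine Finset.filter_congr fun u hu => ?_
    rw [mem_range] at hu
    rw [sw_other (by omega) (by omega)]
    refine and_congr_left fun _ => ?_
    have := h4 u (by omega)
    have := hinj u t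
    have := hinj u w
    omega
  · rw [sw_other hw hwx]
    by_cases hwt : w < t
    · congr 1
      refine Finset.filter_congr fun u hu => ?_
      rw [mem_range] at hu
      by_cases hux : u = x
      · subst hux
        rw [sw_x h1]
        have e1 : Ins n Γ (ex π) (ex π⁻¹ t) w := h3.mono h2.le hwt.le
        have e2 : Ins n Γ (ex π) (ex π⁻¹ u) w := h3.mono le_rfl hwt.le
        simp only [e1, e2, and_true]
        have := h4 w hwt
        have := hinj w t
        have := hinj w u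
        omega
      · rw [sw_other (by omega) hux]
    · refine Finset.card_bij' (fun u _ => sw t x u) (fun u _ => sw t x u) ?_ ?_ ?_ ?_
      · intro u hu
        rw [mem_filter, mem_range] at hu ⊢
        refine ⟨?_, hu.2⟩
        unfold sw
        split_ifs <;> omega
      · intro u hu
        rw [mem_filter, mem_range] at hu ⊢
        rw [sw_sw h1]
        refine ⟨?_, hu.2⟩
        unfold sw
        split_ifs <;> omega
      · intro u _
        exact sw_sw h1 u
      · intro u _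
        exact sw_sw h1 u

theorem cA_t {π : Perm (Fin n)} {t x : ℕ} (ht : t < n) (h : IsNext Γ π t x) :
    cA (sv π t x) t = cA π t + 1 := by
  obtain ⟨h1, h2, h3, h4⟩ := h
  have hx : x < n := by omega
  unfold cA
  simp only [sv_inv ht hx]
  rw [sw_t]
  have hinj : ∀ u v, ex π⁻¹ u = ex π⁻¹ v → u = v := fun u v h => ex_inj π⁻¹ h
  have : (range t).filter (fun u => ex π⁻¹ (sw t x u) < ex π⁻¹ x) =
      insert x ((range t).filter fun u => ex π⁻¹ u < ex π⁻¹ t) := by
    ext u
    rw [mem_insert, mem_filter, mem_filter, mem_range]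
    by_cases hux : u = x
    · subst hux
      rw [sw_x h1]
      simp only [true_or, iff_true]
      exact ⟨h1, h2⟩
    · simp only [hux, false_or]
      refine and_congr_right fun hu => ?_
      rw [sw_other (by omega) hux]
      have := h4 u hu
      have := hinj u t
      have := hinj u x
      omega
  rw [this, Finset.card_insert_of_notMem]
  rw [mem_filter]
  omega

theorem cB_t [NeZero r] {π : Perm (Fin n)} {t x : ℕ} (ht : t < n) (h : IsNext Γ π t x) :
    cB Γ π t = cB Γ (sv π t x) t + 1 := by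
  classical
  obtain ⟨h1, h2, h3, h4⟩ := h
  have hx : x < n := by omega
  unfold cB
  simp only [sv_inv ht hx, sv_ins ht hx h3 (h3.mono h2.le le_rfl) h1]
  rw [sw_t]
  have hinj : ∀ u v, ex π⁻¹ u = ex π⁻¹ v → u = v := fun u v h => ex_inj π⁻¹ h
  have : (range t).filter (fun u => ex π⁻¹ t < ex π⁻¹ u ∧ Ins n Γ (ex π) (ex π⁻¹ u) t) =
      insert x ((range t).filter fun u => ex π⁻¹ x < ex π⁻¹ (sw t x u) ∧
        Ins n Γ (ex π) (ex π⁻¹ (sw t x u)) t) := by
    ext u
    rw [mem_insert, mem_filter, mem_filter, mem_range]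
    by_cases hux : u = x
    · subst hux
      simp only [true_or, iff_true]
      exact ⟨h1, h2, h3⟩
    · simp only [hux, false_or]
      refine and_congr_right fun hu => ?_
      rw [sw_other (by omega) hux]
      refine and_congr_left fun _ => ?_
      have := h4 u hu
      have := hinj u t
      have := hinj u x
      omega
  rw [this, Finset.card_insert_of_notMem]
  rw [mem_filter, sw_x h1]
  omega

theorem exists_next {π : Perm (Fin n)} {t : ℕ} (h : 1 ≤ cB Γ π t) : ∃ x, IsNext Γ π t x := by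
  classical
  unfold cB at h
  obtain ⟨x, h1, h2⟩ := Finset.exists_min_image _ (ex π⁻¹) (Finset.card_pos.1 h)
  rw [mem_filter, mem_range] at h1
  refine ⟨x, h1.1, h1.2.1, h1.2.2, fun u hu htu => ?_⟩
  by_contra hlt
  push Not at hlt
  have := h2 u (by
    rw [mem_filter, mem_range]
    exact ⟨hu, htu, h1.2.2.mono hlt.le le_rfl⟩)
  omega

theorem exists_prev {π : Perm (Fin n)} {t : ℕ} (h : 1 ≤ cA π t)
    (hin : Ins n Γ (ex π) (ex π⁻¹ t) t) : ∃ x, IsPrev Γ π t x := by
  classical
  unfold cA at h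
  obtain ⟨x, h1, h2⟩ := Finset.exists_max_image _ (ex π⁻¹) (Finset.card_pos.1 h)
  rw [mem_filter, mem_range] at h1
  refine ⟨x, h1.1, h1.2, hin, fun u hu htu => ?_⟩
  exact h2 u (by
    rw [mem_filter, mem_range]
    exact ⟨hu, htu⟩)

theorem cB_out {π : Perm (Fin n)} {t : ℕ} (h : ¬ Ins n Γ (ex π) (ex π⁻¹ t) t) :
    cB Γ π t = 0 := by
  classical
  unfold cB
  rw [Finset.card_eq_zero, Finset.filter_eq_empty_iff]
  rintro u - ⟨h1, h2⟩
  exact h (h2.mono h1.le le_rfl)

variable (Γ)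

/-- the conditions on the letters other than `t`. -/
def E (t : ℕ) (π : Perm (Fin n)) : Prop :=
  (∀ w < t, Ins n Γ (ex π) (ex π⁻¹ w) w → cA π w ≤ 1) ∧ (∀ w < n, t < w → cB Γ π w ≤ 1)

variable {Γ}

theorem ins_next [NeZero r] {π : Perm (Fin n)} {t x : ℕ} (ht : t < n) (h : IsNext Γ π t x)
    (w : ℕ) : Ins n Γ (ex (sv π t x)) (ex (sv π t x)⁻¹ w) w ↔ Ins n Γ (ex π) (ex π⁻¹ w) w := by
  obtain ⟨h1, h2, h3, h4⟩ := h
  have hx : x < n := by omega
  have h5 : Ins n Γ (ex π) (ex π⁻¹ t) t := h3.mono h2.le le_rfl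
  rw [sv_inv ht hx, sv_ins ht hx h3 h5 h1]
  by_cases hwt : w = t
  · subst hwt
    rw [sw_t]
    exact iff_of_true h3 h5
  · by_cases hwx : w = x
    · subst hwx
      rw [sw_x h1]
      exact iff_of_true (h5.mono le_rfl h1.le) (h3.mono le_rfl h1.le)
    · rw [sw_other hwt hwx]

theorem E_next [NeZero r] {π : Perm (Fin n)} {t x : ℕ} (ht : t < n) (h : IsNext Γ π t x) :
    E Γ t (sv π t x) ↔ E Γ t π := by
  unfold E
  refine and_congr (forall₂_congr fun w hw => ?_)
    (forall₂_congr fun w hw => forall_congr' fun htw => ?_)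
  · rw [ins_next ht h, cA_other ht h (by omega)]
  · rw [cB_other ht h (by omega)]

open Classical in
/-- the number of permutations with prescribed code of `t`. -/
noncomputable def NN (n : ℕ) (Γ : (Fin r → ℕ) → Prop) (t i j : ℕ) : ℕ :=
  ((univ : Finset (Perm (Fin n))).filter fun π => (E Γ t π ∧ Ins n Γ (ex π) (ex π⁻¹ t) t) ∧
    cA π t = i ∧ cB Γ π t = j).card

theorem NN_step [NeZero r] {t : ℕ} (ht : t < n) (i j : ℕ) :
    NN n Γ t i (j + 1) = NN n Γ t (i + 1) j := by
  classical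
  unfold NN
  let F : Perm (Fin n) → Perm (Fin n) := fun π =>
    if h : ∃ x, IsNext Γ π t x then sv π t h.choose else π
  let G : Perm (Fin n) → Perm (Fin n) := fun π =>
    if h : ∃ x, IsPrev Γ π t x then sv π t h.choose else π
  have hF : ∀ π x, IsNext Γ π t x → F π = sv π t x := by
    intro π x h
    have h' : ∃ x, IsNext Γ π t x := ⟨x, h⟩
    simp only [F]
    rw [dif_pos h', h'.choose_spec.unique h]
  have hG : ∀ π x, IsPrev Γ π t x → G π = sv π t x := by
    intro π x h
    have h' : ∃ x, IsPrev Γ π t x := ⟨x, h⟩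
    simp only [G]
    rw [dif_pos h', h'.choose_spec.unique h]
  refine Finset.card_bij' (fun π _ => F π) (fun π _ => G π) ?_ ?_ ?_ ?_
  · intro π hπ
    simp only [mem_filter, mem_univ, true_and] at hπ ⊢
    obtain ⟨⟨h1, h2⟩, h3, h4⟩ := hπ
    obtain ⟨x, hx⟩ := exists_next (by omega : 1 ≤ cB Γ π t)
    rw [hF π x hx]
    have e1 := cA_t ht hx
    have e2 := cB_t ht hx
    exact ⟨⟨(E_next ht hx).2 h1, (ins_next ht hx t).2 h2⟩, by omega, by omega⟩
  · intro π hπ
    simp only [mem_filter, mem_univ, true_and] at hπ ⊢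
    obtain ⟨⟨h1, h2⟩, h3, h4⟩ := hπ
    obtain ⟨x, hx⟩ := exists_prev (by omega : 1 ≤ cA π t) h2
    rw [hG π x hx]
    have hn := prev_next ht hx
    have e1 := cA_t ht hn
    have e2 := cB_t ht hn
    have e3 := (E_next ht hn)
    have e4 := ins_next ht hn t
    rw [sv_sv] at e1 e2 e3 e4
    exact ⟨⟨e3.1 h1, e4.1 h2⟩, by omega, by omega⟩
  · intro π hπ
    simp only [mem_filter, mem_univ, true_and] at hπ
    obtain ⟨⟨h1, h2⟩, h3, h4⟩ := hπ
    obtain ⟨x, hx⟩ := exists_next (by omega : 1 ≤ cB Γ π t)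
    show G (F π) = π
    rw [hF π x hx, hG _ x (next_prev ht hx), sv_sv]
  · intro π hπ
    simp only [mem_filter, mem_univ, true_and] at hπ
    obtain ⟨⟨h1, h2⟩, h3, h4⟩ := hπ
    obtain ⟨x, hx⟩ := exists_prev (by omega : 1 ≤ cA π t) h2
    show F (G π) = π
    rw [hG π x hx, hF _ x (prev_next ht hx), sv_sv]

theorem NN_sum [NeZero r] {t : ℕ} (ht : t < n) (i j : ℕ) :
    NN n Γ t i j = NN n Γ t 0 (i + j) := by
  induction i generalizing j with
  | zero => rw [zero_add]
  | succ i ih =>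
    rw [← NN_step ht, ih, show i + (j + 1) = i + 1 + j by ring]

theorem cA_le (π : Perm (Fin n)) (t : ℕ) : cA π t ≤ t := by
  unfold cA
  exact (Finset.card_filter_le _ _).trans (card_range t).le

theorem cB_le (π : Perm (Fin n)) (t : ℕ) : cB Γ π t ≤ t := by
  classical
  unfold cB
  exact (Finset.card_filter_le _ _).trans (card_range t).le

open Classical in
theorem step_card [NeZero r] {t : ℕ} (ht : t < n) :
    ((univ : Finset (Perm (Fin n))).filter fun π => E Γ t π ∧
      (Ins n Γ (ex π) (ex π⁻¹ t) t → cA π t ≤ 1)).card =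
    ((univ : Finset (Perm (Fin n))).filter fun π => E Γ t π ∧ cB Γ π t ≤ 1).card := by
  set U := (univ : Finset (Perm (Fin n))).filter fun π =>
    E Γ t π ∧ Ins n Γ (ex π) (ex π⁻¹ t) t with hU
  set V := (univ : Finset (Perm (Fin n))).filter fun π =>
    E Γ t π ∧ ¬ Ins n Γ (ex π) (ex π⁻¹ t) t with hV
  have e1 : ((univ : Finset (Perm (Fin n))).filter fun π => E Γ t π ∧
      (Ins n Γ (ex π) (ex π⁻¹ t) t → cA π t ≤ 1)) = V ∪ U.filter fun π => cA π t ≤ 1 := by
    ext π
    simp only [hU, hV, mem_filter, mem_univ, true_and, mem_union]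
    by_cases h : Ins n Γ (ex π) (ex π⁻¹ t) t <;> simp [h]
  have e2 : ((univ : Finset (Perm (Fin n))).filter fun π => E Γ t π ∧ cB Γ π t ≤ 1) =
      V ∪ U.filter fun π => cB Γ π t ≤ 1 := by
    ext π
    simp only [hU, hV, mem_filter, mem_univ, true_and, mem_union]
    by_cases h : Ins n Γ (ex π) (ex π⁻¹ t) t
    · simp [h]
    · simp [h, cB_out h]
  have d1 : Disjoint V (U.filter fun π => cA π t ≤ 1) := by
    rw [Finset.disjoint_left]
    intro π h1 h2
    simp only [hU, hV, mem_filter, mem_univ, true_and] at h1 h2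
    exact h1.2 h2.1.2
  have d2 : Disjoint V (U.filter fun π => cB Γ π t ≤ 1) := by
    rw [Finset.disjoint_left]
    intro π h1 h2
    simp only [hU, hV, mem_filter, mem_univ, true_and] at h1 h2
    exact h1.2 h2.1.2
  rw [e1, e2, Finset.card_union_of_disjoint d1, Finset.card_union_of_disjoint d2]
  congr 1
  have f1 : (U.filter fun π => cA π t ≤ 1).card =
      ∑ j ∈ range (t + 1), (NN n Γ t 0 j + NN n Γ t 1 j) := by
    rw [Finset.card_eq_sum_card_fiberwise (f := fun π => cB Γ π t) (t := range (t + 1))]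
    · refine Finset.sum_congr rfl fun j _ => ?_
      unfold NN
      rw [← Finset.card_union_of_disjoint]
      · congr 1
        ext π
        simp only [hU, mem_filter, mem_univ, true_and, mem_union]
        have : cA π t ≤ 1 ↔ cA π t = 0 ∨ cA π t = 1 := by omega
        rw [this]
        tauto
      · rw [Finset.disjoint_left]
        intro π h1 h2
        simp only [mem_filter, mem_univ, true_and] at h1 h2
        omega
    · intro π _
      simp only [coe_range, Set.mem_Iio]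
      have := cB_le (Γ := Γ) π t
      omega
  have f2 : (U.filter fun π => cB Γ π t ≤ 1).card =
      ∑ j ∈ range (t + 1), (NN n Γ t j 0 + NN n Γ t j 1) := by
    rw [Finset.card_eq_sum_card_fiberwise (f := fun π => cA π t) (t := range (t + 1))]
    · refine Finset.sum_congr rfl fun j _ => ?_
      unfold NN
      rw [← Finset.card_union_of_disjoint]
      · congr 1
        ext π
        simp only [hU, mem_filter, mem_univ, true_and, mem_union]
        have : cB Γ π t ≤ 1 ↔ cB Γ π t = 0 ∨ cB Γ π t = 1 := by omega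
        rw [this]
        tauto
      · rw [Finset.disjoint_left]
        intro π h1 h2
        simp only [mem_filter, mem_univ, true_and] at h1 h2
        omega
    · intro π _
      simp only [coe_range, Set.mem_Iio]
      have := cA_le π t
      omega
  rw [f1, f2]
  refine Finset.sum_congr rfl fun j _ => ?_
  rw [NN_sum ht 1 j, NN_sum ht j 0, NN_sum ht j 1, add_zero, add_comm 1 j]

open Classical in
theorem code_card [NeZero r] :
    ((univ : Finset (Perm (Fin n))).filter fun π => ∀ w < n,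
      Ins n Γ (ex π) (ex π⁻¹ w) w → cA π w ≤ 1).card =
    ((univ : Finset (Perm (Fin n))).filter fun π => ∀ w < n, cB Γ π w ≤ 1).card := by
  have key : ∀ t ≤ n, ((univ : Finset (Perm (Fin n))).filter fun π =>
      (∀ w < t, Ins n Γ (ex π) (ex π⁻¹ w) w → cA π w ≤ 1) ∧
        ∀ w < n, t ≤ w → cB Γ π w ≤ 1).card =
      ((univ : Finset (Perm (Fin n))).filter fun π => ∀ w < n, cB Γ π w ≤ 1).card := by
    intro t
    induction t with
    | zero =>
      intro _
      congr 1
      refine Finset.filter_congr fun π _ => ?_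
      constructor
      · rintro ⟨-, h⟩ w hw
        exact h w hw (Nat.zero_le w)
      · intro h
        exact ⟨fun w hw => absurd hw (by omega), fun w hw _ => h w hw⟩
    | succ t ih =>
      intro ht
      rw [← ih (by omega)]
      have h1 : ((univ : Finset (Perm (Fin n))).filter fun π =>
          (∀ w < t + 1, Ins n Γ (ex π) (ex π⁻¹ w) w → cA π w ≤ 1) ∧
          ∀ w < n, t + 1 ≤ w → cB Γ π w ≤ 1) =
          ((univ : Finset (Perm (Fin n))).filter fun π => E Γ t π ∧
            (Ins n Γ (ex π) (ex π⁻¹ t) t → cA π t ≤ 1)) := by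
        refine Finset.filter_congr fun π _ => ?_
        unfold E
        constructor
        · rintro ⟨g1, g2⟩
          exact ⟨⟨fun w hw => g1 w (by omega), fun w hw htw => g2 w hw htw⟩, g1 t (by omega)⟩
        · rintro ⟨⟨g1, g2⟩, g3⟩
          refine ⟨fun w hw => ?_, fun w hw htw => g2 w hw htw⟩
          by_cases h : w = t
          · subst h; exact g3
          · exact g1 w (by omega)
      have h2 : ((univ : Finset (Perm (Fin n))).filter fun π =>
          (∀ w < t, Ins n Γ (ex π) (ex π⁻¹ w) w → cA π w ≤ 1) ∧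
          ∀ w < n, t ≤ w → cB Γ π w ≤ 1) =
          ((univ : Finset (Perm (Fin n))).filter fun π => E Γ t π ∧ cB Γ π t ≤ 1) := by
        refine Finset.filter_congr fun π _ => ?_
        unfold E
        constructor
        · rintro ⟨g1, g2⟩
          exact ⟨⟨g1, fun w hw htw => g2 w hw htw.le⟩, g2 t (by omega) le_rfl⟩
        · rintro ⟨⟨g1, g2⟩, g3⟩
          refine ⟨g1, fun w hw htw => ?_⟩
          by_cases h : w = t
          · subst h; exact g3
          · exact g2 w hw (by omega)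
      rw [h1, h2]
      exact step_card (by omega)
  rw [← key n le_rfl]
  congr 1
  refine Finset.filter_congr fun π _ => ?_
  constructor
  · intro h
    exact ⟨h, fun w hw hnw => absurd hw (by omega)⟩
  · rintro ⟨h, -⟩
    exact h

end code

/-! ### The patterns of length five -/

section five

variable {n : ℕ}

theorem contains_iff (q : Fin 5 → ℕ) (π : Perm (Fin n)) :
    Contains q π ↔ ∃ x0 x1 x2 x3 x4 : ℕ, x0 < x1 ∧ x1 < x2 ∧ x2 < x3 ∧ x3 < x4 ∧ x4 < n ∧
      ∀ s t : Fin 5, ex π (![x0, x1, x2, x3, x4] s) < ex π (![x0, x1, x2, x3, x4] t) ↔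
        q s < q t := by
  constructor
  · rintro ⟨i, hi, hv⟩
    have h01 : (i 0 : ℕ) < i 1 := hi (by decide)
    have h12 : (i 1 : ℕ) < i 2 := hi (by decide)
    have h23 : (i 2 : ℕ) < i 3 := hi (by decide)
    have h34 : (i 3 : ℕ) < i 4 := hi (by decide)
    refine ⟨i 0, i 1, i 2, i 3, i 4, h01, h12, h23, h34, (i 4).isLt, ?_⟩
    intro s t
    rw [← hv s t, Fin.lt_def, ← ex_val, ← ex_val]
    fin_cases s <;> fin_cases t <;> simp
  · rintro ⟨x0, x1, x2, x3, x4, h1, h2, h3, h4, h5, hv⟩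
    refine ⟨![⟨x0, by omega⟩, ⟨x1, by omega⟩, ⟨x2, by omega⟩, ⟨x3, by omega⟩, ⟨x4, h5⟩], ?_, ?_⟩
    · rw [Fin.strictMono_iff_lt_succ]
      intro s
      fin_cases s <;> simp <;> omega
    · intro s t
      rw [← hv s t, Fin.lt_def, ← ex_val, ← ex_val]
      fin_cases s <;> fin_cases t <;> simp

/-- the suffix patterns `321`, `231`. -/
def Γ3 (f : Fin 3 → ℕ) : Prop := f 2 < f 0 ∧ f 2 < f 1

/-- the suffix pattern `12`. -/
def Γ2 (f : Fin 2 → ℕ) : Prop := f 0 < f 1

theorem ins3 {p : ℕ → ℕ} {c v : ℕ} : Ins n Γ3 p c v ↔ ∃ x y z : ℕ, c < x ∧ x < y ∧ y < z ∧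
    z < n ∧ v < p z ∧ p z < p x ∧ p z < p y := by
  constructor
  · rintro ⟨x, h1, h2, h3, h4, h5, h6⟩
    have h01 : x 0 < x 1 := h1 (by decide)
    have h12 : x 1 < x 2 := h1 (by decide)
    exact ⟨x 0, x 1, x 2, h2 0, h01, h12, h3 2, h4 2, h5, h6⟩
  · rintro ⟨x, y, z, h1, h2, h3, h4, h5, h6, h7⟩
    refine ⟨![x, y, z], ?_, ?_, ?_, ?_, ?_⟩
    · rw [Fin.strictMono_iff_lt_succ]
      intro s
      fin_cases s <;> simp <;> omega
    · intro i; fin_cases i <;> simp <;> omega
    · intro i; fin_cases i <;> simp <;> omega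
    · intro i; fin_cases i <;> simp <;> omega
    · exact ⟨h6, h7⟩

theorem ins2 {p : ℕ → ℕ} {c v : ℕ} : Ins n Γ2 p c v ↔ ∃ x y : ℕ, c < x ∧ x < y ∧
    y < n ∧ v < p x ∧ p x < p y := by
  constructor
  · rintro ⟨x, h1, h2, h3, h4, h5⟩
    have h01 : x 0 < x 1 := h1 (by decide)
    exact ⟨x 0, x 1, h2 0, h01, h3 1, h4 0, h5⟩
  · rintro ⟨x, y, h1, h2, h3, h4, h5⟩
    refine ⟨![x, y], ?_, ?_, ?_, ?_, ?_⟩
    · rw [Fin.strictMono_iff_lt_succ]
      intro s
      fin_cases s
      simp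
      omega
    · intro i; fin_cases i <;> simp <;> omega
    · intro i; fin_cases i <;> simp <;> omega
    · intro i; fin_cases i <;> simp <;> omega
    · exact h5

theorem ex_ne (π : Perm (Fin n)) {a b : ℕ} (h : a ≠ b) : ex π a ≠ ex π b :=
  fun h' => h (ex_inj π h')

theorem avB (π : Perm (Fin n)) :
    (¬ Contains ![2, 1, 5, 4, 3] π ∧ ¬ Contains ![2, 1, 4, 5, 3] π) ↔ B n Γ3 π := by
  rw [contains_iff, contains_iff]
  constructor
  · rintro ⟨h, h'⟩ i j hij hj hlt hin
    rw [ins3] at hin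
    obtain ⟨x, y, z, h1, h2, h3, h4, h5, h6, h7⟩ := hin
    rcases lt_or_gt_of_ne (ex_ne π h2.ne) with h8 | h8
    · refine h' ⟨i, j, x, y, z, hij, h1, h2, h3, h4, ?_⟩
      intro s t
      fin_cases s <;> fin_cases t <;> simp <;> omega
    · refine h ⟨i, j, x, y, z, hij, h1, h2, h3, h4, ?_⟩
      intro s t
      fin_cases s <;> fin_cases t <;> simp <;> omega
  · intro h
    constructor
    · rintro ⟨x0, x1, x2, x3, x4, h1, h2, h3, h4, h5, hv⟩
      have e1 := (hv 1 0).2 (by simp)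
      have e2 := (hv 0 4).2 (by simp)
      have e3 := (hv 4 3).2 (by simp)
      have e4 := (hv 4 2).2 (by simp)
      simp at e1 e2 e3 e4
      exact h x0 x1 h1 (by omega) e1 (ins3.2 ⟨x2, x3, x4, h2, h3, h4, h5, e2, e4, e3⟩)
    · rintro ⟨x0, x1, x2, x3, x4, h1, h2, h3, h4, h5, hv⟩
      have e1 := (hv 1 0).2 (by simp)
      have e2 := (hv 0 4).2 (by simp)
      have e3 := (hv 4 3).2 (by simp)
      have e4 := (hv 4 2).2 (by simp)
      simp at e1 e2 e3 e4
      exact h x0 x1 h1 (by omega) e1 (ins3.2 ⟨x2, x3, x4, h2, h3, h4, h5, e2, e4, e3⟩)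

theorem avA (π : Perm (Fin n)) :
    (¬ Contains ![1, 2, 5, 4, 3] π ∧ ¬ Contains ![1, 2, 4, 5, 3] π) ↔ A n Γ3 π := by
  rw [contains_iff, contains_iff]
  constructor
  · rintro ⟨h, h'⟩ i j hij hj hlt hin
    rw [ins3] at hin
    obtain ⟨x, y, z, h1, h2, h3, h4, h5, h6, h7⟩ := hin
    rcases lt_or_gt_of_ne (ex_ne π h2.ne) with h8 | h8
    · refine h' ⟨i, j, x, y, z, hij, h1, h2, h3, h4, ?_⟩
      intro s t
      fin_cases s <;> fin_cases t <;> simp <;> omega
    · refine h ⟨i, j, x, y, z, hij, h1, h2, h3, h4, ?_⟩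
      intro s t
      fin_cases s <;> fin_cases t <;> simp <;> omega
  · intro h
    constructor
    · rintro ⟨x0, x1, x2, x3, x4, h1, h2, h3, h4, h5, hv⟩
      have e1 := (hv 0 1).2 (by simp)
      have e2 := (hv 1 4).2 (by simp)
      have e3 := (hv 4 3).2 (by simp)
      have e4 := (hv 4 2).2 (by simp)
      simp at e1 e2 e3 e4
      exact h x0 x1 h1 (by omega) e1 (ins3.2 ⟨x2, x3, x4, h2, h3, h4, h5, e2, e4, e3⟩)
    · rintro ⟨x0, x1, x2, x3, x4, h1, h2, h3, h4, h5, hv⟩
      have e1 := (hv 0 1).2 (by simp)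
      have e2 := (hv 1 4).2 (by simp)
      have e3 := (hv 4 3).2 (by simp)
      have e4 := (hv 4 2).2 (by simp)
      simp at e1 e2 e3 e4
      exact h x0 x1 h1 (by omega) e1 (ins3.2 ⟨x2, x3, x4, h2, h3, h4, h5, e2, e4, e3⟩)

theorem avCA (π : Perm (Fin n)) :
    (¬ Contains ![1, 2, 3, 4, 5] π ∧ ¬ Contains ![2, 1, 3, 4, 5] π) ↔
      ∀ w < n, Ins n Γ2 (ex π) (ex π⁻¹ w) w → cA π w ≤ 1 := by
  rw [contains_iff, contains_iff]
  constructor
  · rintro ⟨h, h'⟩ w hw hin
    by_contra hc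
    push Not at hc
    unfold cA at hc
    rw [Finset.one_lt_card] at hc
    obtain ⟨a, ha, b, hb, hab⟩ := hc
    rw [mem_filter, mem_range] at ha hb
    rw [ins2] at hin
    obtain ⟨x, y, h1, h2, h3, h4, h5⟩ := hin
    have hne := ex_ne π⁻¹ hab
    have ea := ex_ex_inv π a
    have eb := ex_ex_inv π b
    have ew := ex_ex_inv π w
    have main : ∀ a b, a < w → b < w → a ≠ b → ex π⁻¹ a < ex π⁻¹ b → ex π⁻¹ b < ex π⁻¹ w →
        False := by
      intro a b ha hb hab hlt hbw
      have ea := ex_ex_inv π a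
      have eb := ex_ex_inv π b
      rcases lt_or_gt_of_ne hab with h6 | h6
      · refine h ⟨ex π⁻¹ a, ex π⁻¹ b, ex π⁻¹ w, x, y, hlt, hbw, h1, h2, h3, ?_⟩
        intro s t
        fin_cases s <;> fin_cases t <;> simp <;> omega
      · refine h' ⟨ex π⁻¹ a, ex π⁻¹ b, ex π⁻¹ w, x, y, hlt, hbw, h1, h2, h3, ?_⟩
        intro s t
        fin_cases s <;> fin_cases t <;> simp <;> omega
    rcases lt_or_gt_of_ne hne with h6 | h6
    · exact main a b ha.1 hb.1 hab h6 hb.2
    · exact main b a hb.1 ha.1 hab.symm h6 ha.2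
  · intro h
    have main : ∀ x0 x1 x2 x3 x4 : ℕ, x0 < x1 → x1 < x2 → x2 < x3 → x3 < x4 → x4 < n →
        ex π x0 < ex π x2 → ex π x1 < ex π x2 → ex π x2 < ex π x3 → ex π x3 < ex π x4 →
        False := by
      intro x0 x1 x2 x3 x4 h1 h2 h3 h4 h5 e1 e2 e3 e4
      have := h (ex π x2) (ex_lt π (by omega)) (by
        rw [ex_inv_ex]
        exact ins2.2 ⟨x3, x4, h3, h4, h5, e3, e4⟩)
      have h6 : 1 < cA π (ex π x2) := by
        unfold cA
        rw [Finset.one_lt_card]
        refine ⟨ex π x0, ?_, ex π x1, ?_, ex_ne π h1.ne⟩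
        · rw [mem_filter, mem_range, ex_inv_ex, ex_inv_ex]
          exact ⟨e1, by omega⟩
        · rw [mem_filter, mem_range, ex_inv_ex, ex_inv_ex]
          exact ⟨e2, by omega⟩
      omega
    constructor
    · rintro ⟨x0, x1, x2, x3, x4, h1, h2, h3, h4, h5, hv⟩
      have e1 := (hv 0 2).2 (by simp)
      have e2 := (hv 1 2).2 (by simp)
      have e3 := (hv 2 3).2 (by simp)
      have e4 := (hv 3 4).2 (by simp)
      simp at e1 e2 e3 e4
      exact main x0 x1 x2 x3 x4 h1 h2 h3 h4 h5 e1 e2 e3 e4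
    · rintro ⟨x0, x1, x2, x3, x4, h1, h2, h3, h4, h5, hv⟩
      have e1 := (hv 0 2).2 (by simp)
      have e2 := (hv 1 2).2 (by simp)
      have e3 := (hv 2 3).2 (by simp)
      have e4 := (hv 3 4).2 (by simp)
      simp at e1 e2 e3 e4
      exact main x0 x1 x2 x3 x4 h1 h2 h3 h4 h5 e1 e2 e3 e4

theorem avCB (π : Perm (Fin n)) :
    (¬ Contains ![3, 2, 1, 4, 5] π ∧ ¬ Contains ![3, 1, 2, 4, 5] π) ↔
      ∀ w < n, cB Γ2 π w ≤ 1 := by
  classical
  rw [contains_iff, contains_iff]
  constructor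
  · rintro ⟨h, h'⟩ w hw
    by_contra hc
    push Not at hc
    unfold cB at hc
    rw [Finset.one_lt_card] at hc
    obtain ⟨a, ha, b, hb, hab⟩ := hc
    rw [mem_filter, mem_range] at ha hb
    have hne := ex_ne π⁻¹ hab
    have ew := ex_ex_inv π w
    have main : ∀ a b, a < w → b < w → a ≠ b → ex π⁻¹ a < ex π⁻¹ b → ex π⁻¹ w < ex π⁻¹ a →
        Ins n Γ2 (ex π) (ex π⁻¹ b) w → False := by
      intro a b ha hb hab hlt hbw hin
      rw [ins2] at hin
      obtain ⟨x, y, h1, h2, h3, h4, h5⟩ := hin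
      have ea := ex_ex_inv π a
      have eb := ex_ex_inv π b
      rcases lt_or_gt_of_ne hab with h6 | h6
      · refine h' ⟨ex π⁻¹ w, ex π⁻¹ a, ex π⁻¹ b, x, y, hbw, hlt, h1, h2, h3, ?_⟩
        intro s t
        fin_cases s <;> fin_cases t <;> simp <;> omega
      · refine h ⟨ex π⁻¹ w, ex π⁻¹ a, ex π⁻¹ b, x, y, hbw, hlt, h1, h2, h3, ?_⟩
        intro s t
        fin_cases s <;> fin_cases t <;> simp <;> omega
    rcases lt_or_gt_of_ne hne with h6 | h6
    · exact main a b ha.1 hb.1 hab h6 ha.2.1 hb.2.2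
    · exact main b a hb.1 ha.1 hab.symm h6 hb.2.1 ha.2.2
  · intro h
    have main : ∀ x0 x1 x2 x3 x4 : ℕ, x0 < x1 → x1 < x2 → x2 < x3 → x3 < x4 → x4 < n →
        ex π x1 < ex π x0 → ex π x2 < ex π x0 → ex π x0 < ex π x3 → ex π x3 < ex π x4 →
        False := by
      intro x0 x1 x2 x3 x4 h1 h2 h3 h4 h5 e1 e2 e3 e4
      have := h (ex π x0) (ex_lt π (by omega))
      have hin : Ins n Γ2 (ex π) x2 (ex π x0) := ins2.2 ⟨x3, x4, h3, h4, h5, e3, e4⟩
      have h6 : 1 < cB Γ2 π (ex π x0) := by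
        unfold cB
        rw [Finset.one_lt_card]
        refine ⟨ex π x1, ?_, ex π x2, ?_, ex_ne π h2.ne⟩
        · rw [mem_filter, mem_range, ex_inv_ex, ex_inv_ex]
          exact ⟨e1, h1, hin.mono h2.le le_rfl⟩
        · rw [mem_filter, mem_range, ex_inv_ex, ex_inv_ex]
          exact ⟨e2, by omega, hin⟩
      omega
    constructor
    · rintro ⟨x0, x1, x2, x3, x4, h1, h2, h3, h4, h5, hv⟩
      have e1 := (hv 1 0).2 (by simp)
      have e2 := (hv 2 0).2 (by simp)
      have e3 := (hv 0 3).2 (by simp)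
      have e4 := (hv 3 4).2 (by simp)
      simp at e1 e2 e3 e4
      exact main x0 x1 x2 x3 x4 h1 h2 h3 h4 h5 e1 e2 e3 e4
    · rintro ⟨x0, x1, x2, x3, x4, h1, h2, h3, h4, h5, hv⟩
      have e1 := (hv 1 0).2 (by simp)
      have e2 := (hv 2 0).2 (by simp)
      have e3 := (hv 0 3).2 (by simp)
      have e4 := (hv 3 4).2 (by simp)
      simp at e1 e2 e3 e4
      exact main x0 x1 x2 x3 x4 h1 h2 h3 h4 h5 e1 e2 e3 e4

theorem av_eq_card (q q' : Fin 5 → ℕ) (Q : Perm (Fin n) → Prop) [DecidablePred Q]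
    (h : ∀ π, (¬ Contains q π ∧ ¬ Contains q' π) ↔ Q π) :
    av n q q' = ((univ : Finset (Perm (Fin n))).filter Q).card := by
  unfold av
  rw [Nat.card_congr (Equiv.subtypeEquivRight h), Nat.card_eq_fintype_card,
    Fintype.card_subtype]

/-- reverse-complement. -/
def rc (π : Perm (Fin n)) : Perm (Fin n) := Fin.revPerm * π * Fin.revPerm

theorem rc_rc (π : Perm (Fin n)) : rc (rc π) = π := by
  ext t
  simp [rc]

theorem rc_contains {q q' : Fin 5 → ℕ} (hq : ∀ s t, q' s < q' t ↔ q (Fin.rev t) < q (Fin.rev s))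
    {π : Perm (Fin n)} (h : Contains q π) : Contains q' (rc π) := by
  obtain ⟨i, hi, hv⟩ := h
  refine ⟨fun s => Fin.rev (i (Fin.rev s)), ?_, ?_⟩
  · intro s t hst
    exact Fin.rev_lt_rev.2 (hi (Fin.rev_lt_rev.2 hst))
  · intro s t
    rw [hq, ← hv]
    simp [rc]

theorem rc_iff {q q' : Fin 5 → ℕ} (hq : ∀ s t, q' s < q' t ↔ q (Fin.rev t) < q (Fin.rev s))
    (π : Perm (Fin n)) : Contains q π ↔ Contains q' (rc π) := by
  have hq' : ∀ s t, q s < q t ↔ q' (Fin.rev t) < q' (Fin.rev s) := by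
    intro s t
    rw [hq, Fin.rev_rev, Fin.rev_rev]
  constructor
  · exact rc_contains hq
  · intro h
    have := rc_contains hq' h
    rwa [rc_rc] at this

theorem rc_av {q₁ q₂ q₁' q₂' : Fin 5 → ℕ}
    (h1 : ∀ s t, q₁' s < q₁' t ↔ q₁ (Fin.rev t) < q₁ (Fin.rev s))
    (h2 : ∀ s t, q₂' s < q₂' t ↔ q₂ (Fin.rev t) < q₂ (Fin.rev s)) :
    av n q₁ q₂ = av n q₁' q₂' := by
  unfold av
  let e : Perm (Fin n) ≃ Perm (Fin n) := ⟨rc, rc, rc_rc, rc_rc⟩
  exact Nat.card_congr (Equiv.subtypeEquiv e fun π =>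
    and_congr (not_congr (rc_iff h1 π)) (not_congr (rc_iff h2 π)))

/-- complement. -/
def cp (π : Perm (Fin n)) : Perm (Fin n) := Fin.revPerm * π

theorem cp_cp (π : Perm (Fin n)) : cp (cp π) = π := by
  ext t
  simp [cp]

theorem cp_contains {q q' : Fin 5 → ℕ} (hq : ∀ s t, q' s < q' t ↔ q t < q s)
    {π : Perm (Fin n)} (h : Contains q π) : Contains q' (cp π) := by
  obtain ⟨i, hi, hv⟩ := h
  refine ⟨i, hi, ?_⟩
  intro s t
  rw [hq, ← hv]
  simp [cp]

theorem cp_iff {q q' : Fin 5 → ℕ} (hq : ∀ s t, q' s < q' t ↔ q t < q s)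
    (π : Perm (Fin n)) : Contains q π ↔ Contains q' (cp π) := by
  constructor
  · exact cp_contains hq
  · intro h
    have := cp_contains (fun s t => (hq t s).symm) h
    rwa [cp_cp] at this

theorem cp_av {q₁ q₂ q₁' q₂' : Fin 5 → ℕ}
    (h1 : ∀ s t, q₁' s < q₁' t ↔ q₁ t < q₁ s)
    (h2 : ∀ s t, q₂' s < q₂' t ↔ q₂ t < q₂ s) :
    av n q₁ q₂ = av n q₁' q₂' := by
  unfold av
  let e : Perm (Fin n) ≃ Perm (Fin n) := ⟨cp, cp, cp_cp, cp_cp⟩
  exact Nat.card_congr (Equiv.subtypeEquiv e fun π =>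
    and_congr (not_congr (cp_iff h1 π)) (not_congr (cp_iff h2 π)))

end five

/-- **Q1, positive answer.** -/
theorem result (n : ℕ) :
    av n ![4, 5, 1, 2, 3] ![4, 5, 2, 1, 3] = av n ![1, 2, 3, 4, 5] ![1, 2, 3, 5, 4] := by
  classical
  -- complement
  have h1 : av n ![4, 5, 1, 2, 3] ![4, 5, 2, 1, 3] = av n ![2, 1, 5, 4, 3] ![2, 1, 4, 5, 3] :=
    cp_av (by decide) (by decide)
  -- the prefix `21` is exchanged with the prefix `12`
  have h2 : av n ![2, 1, 5, 4, 3] ![2, 1, 4, 5, 3] = av n ![1, 2, 5, 4, 3] ![1, 2, 4, 5, 3] := by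
    rw [av_eq_card _ _ _ avB, av_eq_card _ _ _ avA]
    exact card_one.symm
  -- reverse-complement
  have h3 : av n ![1, 2, 5, 4, 3] ![1, 2, 4, 5, 3] = av n ![3, 2, 1, 4, 5] ![3, 1, 2, 4, 5] :=
    rc_av (by decide) (by decide)
  -- the prefixes `321, 312` are exchanged with the prefixes `123, 213`
  have h4 : av n ![3, 2, 1, 4, 5] ![3, 1, 2, 4, 5] = av n ![1, 2, 3, 4, 5] ![2, 1, 3, 4, 5] := by
    rw [av_eq_card _ _ _ avCB, av_eq_card _ _ _ avCA]
    exact code_card.symm
  -- reverse-complement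
  have h5 : av n ![1, 2, 3, 4, 5] ![2, 1, 3, 4, 5] = av n ![1, 2, 3, 4, 5] ![1, 2, 3, 5, 4] :=
    rc_av (by decide) (by decide)
  rw [h1, h2, h3, h4, h5]

end Pool.Agent.Results.MP_b2be16_co.WilfPair
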